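import Pool.Agent.Helper17.SA.St2

/-!
# Project SA (MP_21f9f3), module TR: transfer to the alternating group
-/

set_option autoImplicit false

namespace Pool.Agent.Helper80.SA

open Equiv Pool.Agent.Helper17.SA

theorem pTR : StTR := by
  intro m p P hm hp
  have : Fact p.Prime := ⟨hp⟩
  classical
  set P' : Subgroup (Perm (Fin m)) :=
    (P : Subgroup (alternatingGroup (Fin m))).map (alternatingGroup (Fin m)).subtype with hP'
  have hfr := Sylow.normalizer_sup_eq_top P
  -- an odd element of the normalizer
  obtain ⟨g, hg, hs⟩ : ∃ g : Perm (Fin m), (∀ h, h ∈ P' ↔ g * h * g⁻¹ ∈ P') ∧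
      Perm.sign g = -1 := by
    by_contra hcon
    push Not at hcon
    have hle : (⊤ : Subgroup (Perm (Fin m))) ≤ alternatingGroup (Fin m) := by
      rw [← hfr]
      refine sup_le ?_ le_rfl
      intro g hg
      have h1 := hcon g (Subgroup.mem_normalizer_iff.1 hg)
      rw [Perm.mem_alternatingGroup]
      rcases Int.units_eq_one_or (Perm.sign g) with h | h
      · exact h
      · exact absurd h h1
    have h2 : Equiv.swap (⟨0, by omega⟩ : Fin m) ⟨1, by omega⟩ ∈ alternatingGroup (Fin m) :=
      hle (Subgroup.mem_top _)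
    rw [Perm.mem_alternatingGroup, Perm.sign_swap] at h2
    · exact absurd h2 (by decide)
    · intro h
      simp at h
  have hbad : ∀ x : alternatingGroup (Fin m),
      Bad (P : Subgroup (alternatingGroup (Fin m))) x → Bad P' (x : Perm (Fin m)) := by
    rintro x ⟨y, hy, hy1, hxy⟩
    refine ⟨(y : Perm (Fin m)), ⟨y, hy, rfl⟩, ?_, ⟨x * y * x⁻¹, hxy, rfl⟩⟩
    intro h
    exact hy1 (Subtype.ext h)
  have hbadg : ∀ x : Perm (Fin m), Bad P' x → Bad P' (x * g) := by
    rintro x ⟨y, hy, hy1, hxy⟩
    refine ⟨g⁻¹ * y * g, ?_, ?_, ?_⟩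
    · rw [hg]
      have : g * (g⁻¹ * y * g) * g⁻¹ = y := by group
      rw [this]
      exact hy
    · intro h
      apply hy1
      have : y = g * (g⁻¹ * y * g) * g⁻¹ := by group
      rw [this, h]
      group
    · have : x * g * (g⁻¹ * y * g) * (x * g)⁻¹ = x * y * x⁻¹ := by group
      rw [this]
      exact hxy
  let F : Bool × {x : alternatingGroup (Fin m) //
      Bad (P : Subgroup (alternatingGroup (Fin m))) x} → {x : Perm (Fin m) // Bad P' x} :=
    fun q => if q.1 then ⟨(q.2.1 : Perm (Fin m)) * g, hbadg _ (hbad _ q.2.2)⟩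
      else ⟨(q.2.1 : Perm (Fin m)), hbad _ q.2.2⟩
  have hF : Function.Injective F := by
    rintro ⟨b, x⟩ ⟨c, y⟩ h
    have hx := (Perm.mem_alternatingGroup).1 x.1.2
    have hy := (Perm.mem_alternatingGroup).1 y.1.2
    cases b <;> cases c
    · simp only [F, Bool.false_eq_true, if_false, Subtype.mk.injEq] at h
      rw [Prod.mk.injEq]
      exact ⟨rfl, Subtype.ext (Subtype.ext h)⟩
    · exfalso
      simp only [F, Bool.false_eq_true, if_false, if_true, Subtype.mk.injEq] at h
      have h2 := congrArg Perm.sign h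
      rw [Perm.sign_mul, hx, hy, hs] at h2
      exact absurd h2 (by decide)
    · exfalso
      simp only [F, Bool.false_eq_true, if_false, if_true, Subtype.mk.injEq] at h
      have h2 := congrArg Perm.sign h
      rw [Perm.sign_mul, hx, hy, hs] at h2
      exact absurd h2 (by decide)
    · simp only [F, if_true, Subtype.mk.injEq] at h
      rw [Prod.mk.injEq]
      exact ⟨rfl, Subtype.ext (Subtype.ext (mul_right_cancel h))⟩
  have hcard := Nat.card_le_card_of_injective F hF
  rw [Nat.card_prod] at hcard
  have h2 : Nat.card Bool = 2 := by simp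
  rw [h2] at hcard
  exact hcard

end Pool.Agent.Helper80.SA
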