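import Pool.Agent.Helper17.SA.St3

/-!
# Project SA, module MN1 (the relation `Rel`)
-/

set_option autoImplicit false

open scoped Pointwise

namespace Pool.Agent.Helper80.SA

open Equiv Pool.Agent.Helper17.SA

theorem mn1_cast {Ω : Type} [DecidableEq Ω] {S : Ω → Type} [∀ ω, Group (S ω)] (f : ∀ ω, S ω)
    (ω : Ω) : ∀ w : Ω, w = ω → ∀ b : S w, f = Pi.mulSingle w b → ∃ a : S ω, f = Pi.mulSingle ω a := by
  rintro w rfl b h
  exact ⟨b, h⟩

theorem mn1_pow {Ω : Type} [DecidableEq Ω] {S : Ω → Type} [∀ ω, Group (S ω)]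
    (y : MulAut (∀ ω, S ω)) (ω : Ω) (t : MulAut (S ω))
    (h : ∀ a : S ω, y (Pi.mulSingle ω a) = Pi.mulSingle ω (t a)) (n : ℕ) :
    ∀ a : S ω, (y ^ n) (Pi.mulSingle ω a) = Pi.mulSingle ω ((t ^ n) a) := by
  induction n with
  | zero =>
    intro a
    rw [pow_zero, pow_zero, MulAut.one_apply, MulAut.one_apply]
  | succ n ih =>
    intro a
    rw [pow_succ, pow_succ, MulAut.mul_apply, MulAut.mul_apply, h, ih]

theorem pMN1 : StPER → StMN1 := by
  intro hPER Ω _ _ S _ hsimple hnc R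
  obtain ⟨σ, hσ, -⟩ := hPER Ω S hsimple hnc
  refine ⟨?_, ?_, ?_, ?_⟩
  · intro ω x
    exact ⟨1, R.one_mem, 1, R.one_mem, fun a => ⟨a, rfl, rfl⟩⟩
  · rintro ω ω' x x' ⟨y, hy, r, hr, h⟩
    -- the factor `ω` is mapped to `ω'`
    have hωω' : σ y ω = ω' := by
      obtain ⟨a0, b0, hab⟩ := hnc ω
      have ha0 : a0 ≠ 1 := by
        rintro rfl
        exact hab (by rw [one_mul, mul_one])
      obtain ⟨b1, hb1, -⟩ := h a0
      obtain ⟨b2, hb2⟩ := hσ y ω a0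
      by_contra hne
      have h1 : b1 = 1 := by
        have h2 : (Pi.mulSingle ω' b1 : ∀ ω, S ω) ω' = (Pi.mulSingle (σ y ω) b2 : ∀ ω, S ω) ω' := by
          rw [← hb1, hb2]
        rw [Pi.mulSingle_eq_same, Pi.mulSingle_eq_of_ne (Ne.symm hne)] at h2
        exact h2
      rw [h1, Pi.mulSingle_one] at hb1
      have h3 : (Pi.mulSingle ω a0 : ∀ ω, S ω) = 1 := by
        apply y.injective
        rw [hb1, map_one]
      exact ha0 (Pi.mulSingle_eq_one_iff.1 h3)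
    have hinv : σ y⁻¹ ω' = ω := by
      rw [map_inv, ← hωω']
      exact (σ y).symm_apply_apply ω
    refine ⟨y⁻¹, R.inv_mem hy, r⁻¹, R.inv_mem hr, fun b => ?_⟩
    obtain ⟨b', hb'⟩ := hσ y⁻¹ ω' b
    obtain ⟨a, ha⟩ := mn1_cast (y⁻¹ (Pi.mulSingle ω' b)) ω _ hinv b' hb'
    refine ⟨a, ha, ?_⟩
    obtain ⟨b2, hb2, hb3⟩ := h a
    have h4 : y (Pi.mulSingle ω a) = Pi.mulSingle ω' b := by
      rw [← ha, MulAut.apply_inv_self]
    have h5 : b2 = b := by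
      apply Pi.mulSingle_injective (M := S) ω'
      rw [← hb2, h4]
    subst h5
    rw [← hb3, MulAut.inv_apply_self]
  · rintro ω ω' ω'' x x' x'' ⟨y1, hy1, r1, hr1, h1⟩ ⟨y2, hy2, r2, hr2, h2⟩
    refine ⟨y2 * y1, R.mul_mem hy2 hy1, r2 * r1, R.mul_mem hr2 hr1, fun a => ?_⟩
    obtain ⟨b, hb1, hb2⟩ := h1 a
    obtain ⟨c, hc1, hc2⟩ := h2 b
    refine ⟨c, ?_, ?_⟩
    · rw [MulAut.mul_apply, hb1, hc1]
    · rw [MulAut.mul_apply, hb2, hc2]
  · rintro p hp ω ⟨t, y, hy, h⟩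
    obtain ⟨k, hk⟩ := hp ⟨y, hy⟩
    refine ⟨k, ?_⟩
    have hk' : y ^ (p ^ k) = 1 := by
      have := congrArg (Subtype.val) hk
      simpa using this
    apply Subtype.ext
    change t ^ (p ^ k) = 1
    apply MulEquiv.ext
    intro a
    have h1 := mn1_pow y ω t h (p ^ k) a
    rw [hk', MulAut.one_apply] at h1
    rw [MulAut.one_apply]
    exact (Pi.mulSingle_injective (M := S) ω h1).symm

end Pool.Agent.Helper80.SA
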